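import Pool.Agent.Q198.IS.Gen

/-!
The isosceles three-body problem: definitions.

Bodies are numbered `0, 1, 2` (the `q₁, q₂, q₃` of the text); the line `L` is the third coordinate
axis of `ℝ³`.
-/

set_option autoImplicit false

namespace Q198.IS

/-- Euclidean space. -/
abbrev E3 := EuclideanSpace ℝ (Fin 3)

/-- Positions and velocities of three bodies. -/
abbrev St := (Fin 3 → E3) × (Fin 3 → E3)

/-- The cross product. -/
def cross (a b : E3) : E3 :=
  WithLp.toLp 2 ![a 1 * b 2 - a 2 * b 1, a 2 * b 0 - a 0 * b 2, a 0 * b 1 - a 1 * b 0]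

/-- The unit vector of the line `L`. -/
def axis : E3 := WithLp.toLp 2 ![0, 0, 1]

/-- The rotation by `π` about `L`. -/
def halfTurn (a : E3) : E3 := WithLp.toLp 2 ![-a 0, -a 1, a 2]

/-- The Newtonian acceleration `∑_{j ≠ i} m_j r_{ij}^{-3} (q_j - q_i)` of body `i`. -/
noncomputable def acc (m : Fin 3 → ℝ) (q : Fin 3 → E3) (i : Fin 3) : E3 :=
  ∑ j ∈ Finset.univ.erase i, (m j / ‖q j - q i‖ ^ 3) • (q j - q i)

/-- The energy `H`. -/
noncomputable def energy (m : Fin 3 → ℝ) (x : St) : ℝ :=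
  1 / 2 * ∑ i, m i * ‖x.2 i‖ ^ 2 - ∑ i, ∑ j ∈ Finset.Ioi i, m i * m j / ‖x.1 i - x.1 j‖

/-- The angular momentum `C`. -/
def angMom (m : Fin 3 → ℝ) (x : St) : E3 := ∑ i, m i • cross (x.1 i) (x.2 i)

/-- The isosceles states: the center of mass is fixed at the origin, `q₃` and its velocity are in
`L`, and `q₂` and its velocity are the images of those of `q₁` under the rotation by `π`
about `L`. -/
structure Isosceles (m : Fin 3 → ℝ) (x : St) : Prop where
  com : ∑ i, m i • x.1 i = 0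
  mom : ∑ i, m i • x.2 i = 0
  pos3 : x.1 2 ∈ Submodule.span ℝ {axis}
  vel3 : x.2 2 ∈ Submodule.span ℝ {axis}
  pos2 : x.1 1 = halfTurn (x.1 0)
  vel2 : x.2 1 = halfTurn (x.2 0)

/-- The set `P` of collision-free isosceles states. -/
def P (m : Fin 3 → ℝ) : Set St := {x | Isosceles m x ∧ ∀ i j, i ≠ j → x.1 i ≠ x.1 j}

/-- The integral manifold `M_{h,c}`. -/
def M (m : Fin 3 → ℝ) (h c : ℝ) : Set St := {x ∈ P m | energy m x = h ∧ angMom m x = c • axis}

/-- `γ` is a solution of the three-body problem, defined for all times and free of collisions. -/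
def IsSolution (m : Fin 3 → ℝ) (γ : ℝ → St) : Prop :=
  ∀ t, (∀ i j, i ≠ j → (γ t).1 i ≠ (γ t).1 j) ∧ HasDerivAt γ ((γ t).2, acc m (γ t).1) t

/-- `Φ` is the flow of the three-body problem on the set `S` of states. -/
def IsFlow (m : Fin 3 → ℝ) (S : Set St) (Φ : ℝ → S → S) : Prop :=
  ∀ x : S, Φ 0 x = x ∧ IsSolution m (fun t => (Φ t x : St))

end Q198.IS
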