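import Mathlib

/-!
General lemmas: isometries of compact spaces have entropy zero; a round circle in a linear plane is
a smooth submanifold.
-/

set_option autoImplicit false

open Set Filter Topology Uniformity Dynamics
open scoped ContDiff

namespace Q198.IS

/-- `S` is a smooth submanifold of the normed space `V`: locally it is the zero set of a smooth
submersion to some `ℝ^k`. -/
def IsSmoothSubmanifold {V : Type} [NormedAddCommGroup V] [NormedSpace ℝ V] (S : Set V) : Prop :=
  ∀ x ∈ S, ∃ (k : ℕ) (U : Set V) (F : V → EuclideanSpace ℝ (Fin k)), IsOpen U ∧ x ∈ U ∧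
    ContDiffOn ℝ ∞ F U ∧ (∀ y ∈ U, Function.Surjective (fderiv ℝ F y)) ∧
    S ∩ U = {y ∈ U | F y = 0}

theorem coverEntropy_isometry {X : Type} [PseudoMetricSpace X] [CompactSpace X] [Nonempty X]
    {T : X → X} (hT : Isometry T) : coverEntropy T univ = 0 := by
  apply le_antisymm _ (coverEntropy_nonneg T univ_nonempty)
  unfold coverEntropy
  apply iSup₂_le
  intro U hU
  obtain ⟨ε, hε, hεU⟩ := Metric.mem_uniformity_dist.1 hU
  have hcomp : IsCompact (univ : Set X) := isCompact_univ
  obtain ⟨s, hs⟩ := hcomp.elim_finite_subcover (fun x : X => Metric.ball x ε)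
    (fun x => Metric.isOpen_ball) (fun x _ => mem_iUnion.2 ⟨x, Metric.mem_ball_self hε⟩)
  have hcov : ∀ n, IsDynCoverOf T univ U n (s : Set X) := by
    intro n x hx
    obtain ⟨y, hy, hxy⟩ := mem_iUnion₂.1 (hs hx)
    refine ⟨y, hy, ?_⟩
    have hit : ∀ k, dist (T^[k] x) (T^[k] y) = dist x y := by
      intro k
      induction k with
      | zero => rfl
      | succ k ih => rw [Function.iterate_succ_apply', Function.iterate_succ_apply', hT.dist_eq, ih]
    apply mem_dynEntourage.2
    intro k _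
    apply hεU
    rw [hit k]
    exact hxy
  have h1 : coverEntropyEntourage T univ U ≤
      ExpGrowth.expGrowthSup fun _ : ℕ => ((s.card : ℕ∞) : ENNReal) := by
    apply ExpGrowth.expGrowthSup_monotone
    intro n
    exact ENat.toENNReal_mono (hcov n).coverMincard_le_card
  refine h1.trans ?_
  have h0 : s.card ≠ 0 := by
    intro h0
    rw [Finset.card_eq_zero] at h0
    subst h0
    obtain ⟨x⟩ := ‹Nonempty X›
    simpa using hs (mem_univ x)
  rw [ExpGrowth.expGrowthSup_const]
  · exact_mod_cast h0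
  · exact_mod_cast ENat.natCast_ne_top _

theorem circle_submanifold {V : Type} [NormedAddCommGroup V] [NormedSpace ℝ V]
    [FiniteDimensional ℝ V] (A : ℂ →L[ℝ] V) (B : V →L[ℝ] ℂ) (hBA : ∀ u, B (A u) = u) {r : ℝ}
    (hr : 0 < r) : IsSmoothSubmanifold (A '' Metric.sphere 0 r) := by
  intro x hx
  let K : Submodule ℝ V := LinearMap.ker (B : V →ₗ[ℝ] ℂ)
  have hK : ∀ y, (ContinuousLinearMap.id ℝ V - A.comp B) y ∈ K := by
    intro y
    change B (y - A (B y)) = 0
    rw [map_sub, hBA, sub_self]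
  let G : V →L[ℝ] K := (ContinuousLinearMap.id ℝ V - A.comp B).codRestrict K hK
  have hG : ∀ y, (G y : V) = y - A (B y) := fun y => rfl
  let F₀ : V → K × ℝ := fun y => (G y, ‖B y‖ ^ 2 - r ^ 2)
  let e := toEuclidean (E := K × ℝ)
  have hsm : ContDiff ℝ ∞ F₀ :=
    G.contDiff.prodMk (((contDiff_norm_sq ℝ).comp B.contDiff).sub contDiff_const)
  have hder : ∀ y, HasFDerivAt F₀ (G.prod ((2 : ℝ) • (innerSL ℝ (B y)).comp B)) y := by
    intro y
    have h1 : HasFDerivAt (fun y => ‖B y‖ ^ 2) ((2 : ℝ) • (innerSL ℝ (B y)).comp B) y := by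
      have h2 := B.hasFDerivAt.norm_sq (x := y)
      refine h2.congr_fderiv ?_
      rw [two_smul, two_smul]
    exact G.hasFDerivAt.prodMk (h1.sub_const _)
  refine ⟨_, {y | B y ≠ 0}, fun y => e (F₀ y), ?_, ?_, ?_, ?_, ?_⟩
  · exact isOpen_ne.preimage B.continuous
  · obtain ⟨u, hu, rfl⟩ := hx
    change B (A u) ≠ 0
    rw [hBA]
    intro h0
    rw [mem_sphere_zero_iff_norm, h0, norm_zero] at hu
    exact hr.ne hu
  · exact (e.contDiff.comp hsm).contDiffOn
  · intro y hy
    have h1 : HasFDerivAt (fun y => e (F₀ y))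
        (e.toContinuousLinearMap.comp (G.prod ((2 : ℝ) • (innerSL ℝ (B y)).comp B))) y :=
      e.toContinuousLinearMap.hasFDerivAt.comp y (hder y)
    rw [h1.fderiv]
    have hy' : B y ≠ 0 := hy
    intro w
    obtain ⟨⟨k, t⟩, rfl⟩ := e.surjective w
    have hB2 : ‖B y‖ ^ 2 ≠ 0 := by positivity
    refine ⟨(k : V) + A ((t / (2 * ‖B y‖ ^ 2)) • B y), ?_⟩
    change e _ = e _
    congr 1
    have hk : B (k : V) = 0 := k.2
    apply Prod.ext
    · apply Subtype.ext
      change (k : V) + A ((t / (2 * ‖B y‖ ^ 2)) • B y) -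
        A (B ((k : V) + A ((t / (2 * ‖B y‖ ^ 2)) • B y))) = k
      rw [map_add, hk, hBA, zero_add, add_sub_cancel_right]
    · change (2 : ℝ) • inner ℝ (B y) (B ((k : V) + A ((t / (2 * ‖B y‖ ^ 2)) • B y))) = t
      rw [map_add, hk, hBA, zero_add, inner_smul_right, real_inner_self_eq_norm_sq, smul_eq_mul]
      field_simp
  · ext y
    constructor
    · rintro ⟨⟨u, hu, rfl⟩, hy⟩
      refine ⟨hy, ?_⟩
      have h1 : F₀ (A u) = 0 := by
        apply Prod.ext
        · apply Subtype.ext
          change A u - A (B (A u)) = 0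
          rw [hBA, sub_self]
        · change ‖B (A u)‖ ^ 2 - r ^ 2 = 0
          rw [hBA, mem_sphere_zero_iff_norm.1 hu, sub_self]
      change e (F₀ (A u)) = 0
      rw [h1, map_zero]
    · rintro ⟨hy, h0⟩
      refine ⟨⟨B y, ?_, ?_⟩, hy⟩
      · have h1 : F₀ y = 0 := e.injective (by rw [map_zero]; exact h0)
        have h2 : ‖B y‖ ^ 2 - r ^ 2 = 0 := congrArg Prod.snd h1
        rw [mem_sphere_zero_iff_norm]
        have h3 : ‖B y‖ ^ 2 = r ^ 2 := by linarith
        exact (pow_left_inj₀ (norm_nonneg _) hr.le two_ne_zero).1 h3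
      · have h1 : F₀ y = 0 := e.injective (by rw [map_zero]; exact h0)
        have h2 : (G y : V) = 0 := congrArg (fun p : K × ℝ => (p.1 : V)) h1
        rw [hG, sub_eq_zero] at h2
        exact h2.symm

end Q198.IS
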