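import Pool.Agent.Q198.IS.Defs

set_option autoImplicit false

open Set Filter Topology

namespace Q198.IS

/-- The horizontal vector with given coordinates. -/
noncomputable def vec : ℂ →L[ℝ] E3 :=
  LinearMap.toContinuousLinearMap
    { toFun := fun u => WithLp.toLp 2 ![u.re, u.im, 0]
      map_add' := fun u v => by ext i; fin_cases i <;> simp
      map_smul' := fun a u => by ext i; fin_cases i <;> simp }

@[simp] theorem vec_0 (u : ℂ) : vec u 0 = u.re := rfl
@[simp] theorem vec_1 (u : ℂ) : vec u 1 = u.im := rfl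
@[simp] theorem vec_2 (u : ℂ) : vec u 2 = 0 := rfl

theorem norm_vec (u : ℂ) : ‖vec u‖ = ‖u‖ := by
  rw [EuclideanSpace.norm_eq, Complex.norm_eq_sqrt_sq_add_sq]
  congr 1
  simp [Fin.sum_univ_three]

/-- Positions `(u, -u, 0)`. -/
noncomputable def tri : ℂ →L[ℝ] (Fin 3 → E3) :=
  ContinuousLinearMap.pi ![vec, -vec, 0]

@[simp] theorem tri_0 (u : ℂ) : tri u 0 = vec u := rfl
@[simp] theorem tri_1 (u : ℂ) : tri u 1 = -vec u := rfl
@[simp] theorem tri_2 (u : ℂ) : tri u 2 = 0 := rfl

theorem norm_tri (u : ℂ) : ‖tri u‖ = ‖u‖ := by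
  apply le_antisymm
  · rw [pi_norm_le_iff_of_nonneg (norm_nonneg _)]
    intro i
    fin_cases i
    · exact (norm_vec u).le
    · change ‖-vec u‖ ≤ _
      rw [norm_neg, norm_vec]
    · change ‖(0 : E3)‖ ≤ _
      rw [norm_zero]
      exact norm_nonneg _
  · rw [← norm_vec u]
    exact norm_le_pi_norm (tri u) 0

/-- Multiplication by `i ω`. -/
noncomputable def im (ω : ℝ) : ℂ →L[ℝ] ℂ :=
  LinearMap.toContinuousLinearMap
    { toFun := fun u : ℂ => (ω * Complex.I : ℂ) * u
      map_add' := fun u v => by ring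
      map_smul' := fun a u => by simp; ring }

@[simp] theorem im_apply (ω : ℝ) (u : ℂ) : im ω u = ω * Complex.I * u := rfl

/-- The states rotating with angular velocity `ω`. -/
noncomputable def rot (ω : ℝ) : ℂ →L[ℝ] St := tri.prod (tri.comp (im ω))

@[simp] theorem rot_fst (ω : ℝ) (u : ℂ) : (rot ω u).1 = tri u := rfl
@[simp] theorem rot_snd (ω : ℝ) (u : ℂ) : (rot ω u).2 = tri (ω * Complex.I * u) := rfl

theorem norm_rot (ω : ℝ) (u : ℂ) : ‖rot ω u‖ = max ‖u‖ (|ω| * ‖u‖) := by
  rw [Prod.norm_def, rot_fst, rot_snd, norm_tri, norm_tri]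
  simp

/-- The horizontal coordinates of the first body. -/
noncomputable def fstC : St →L[ℝ] ℂ :=
  LinearMap.toContinuousLinearMap
    { toFun := fun x => ⟨x.1 0 0, x.1 0 1⟩
      map_add' := fun x y => by apply Complex.ext <;> simp
      map_smul' := fun a x => by apply Complex.ext <;> simp }

theorem fstC_rot (ω : ℝ) (u : ℂ) : fstC (rot ω u) = u := rfl

/-- The minimum of the effective potential. -/
theorem key {a b r d X Y X' Y' W' Z' c : ℝ} (ha : 0 < a) (hb : 0 < b) (hr : 0 < r)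
    (hr2 : r ^ 2 = X ^ 2 + Y ^ 2) (hd : r ≤ d) (hc : c ≠ 0)
    (hC : 2 * a * (X * Y' - Y * X') = c)
    (hE : a * (X' ^ 2 + Y' ^ 2 + W' ^ 2) + b * Z' ^ 2 / 2 - (a * a / (2 * r) + 2 * (a * b / d)) =
      -(a * (a ^ 2 / 2 + 2 * a * b) ^ 2 / c ^ 2)) :
    r = c ^ 2 / (a ^ 2 * (a + 4 * b)) ∧ X * X' + Y * Y' = 0 ∧ W' = 0 ∧ Z' = 0 ∧ d = r := by
  have hd0 : 0 < d := hr.trans_le hd
  have hc2 : 0 < c ^ 2 := by positivity
  set κ := a ^ 2 / 2 + 2 * a * b with hκ
  have hκ0 : 0 < κ := by positivity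
  set s := X * X' + Y * Y' with hs
  have hvel : X' ^ 2 + Y' ^ 2 = (c ^ 2 / (4 * a ^ 2) + s ^ 2) / r ^ 2 := by
    rw [eq_div_iff (by positivity), hr2, ← hC, hs]
    field_simp
    ring
  have hinv : 0 ≤ 1 / r - 1 / d := by
    rw [sub_nonneg]
    exact one_div_le_one_div_of_le hr hd
  have hsum : c ^ 2 / (4 * a) * (1 / r - 2 * a * κ / c ^ 2) ^ 2 + a * s ^ 2 / r ^ 2 + a * W' ^ 2 +
      b * Z' ^ 2 / 2 + 2 * a * b * (1 / r - 1 / d) = 0 := by
    have h1 : a * (X' ^ 2 + Y' ^ 2 + W' ^ 2) =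
        a * ((c ^ 2 / (4 * a ^ 2) + s ^ 2) / r ^ 2) + a * W' ^ 2 := by rw [← hvel]; ring
    rw [h1] at hE
    have h2 : c ^ 2 / (4 * a) * (1 / r - 2 * a * κ / c ^ 2) ^ 2 =
        a * ((c ^ 2 / (4 * a ^ 2)) / r ^ 2) - κ / r + a * κ ^ 2 / c ^ 2 := by
      field_simp
      ring
    have h3 : κ / r = a * a / (2 * r) + 2 * a * b * (1 / r) := by
      rw [hκ]
      field_simp
    have h4 : a * ((c ^ 2 / (4 * a ^ 2) + s ^ 2) / r ^ 2) =
        a * ((c ^ 2 / (4 * a ^ 2)) / r ^ 2) + a * s ^ 2 / r ^ 2 := by ring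
    have h5 : 2 * (a * b / d) = 2 * a * b * (1 / d) := by ring
    rw [h4, h5] at hE
    rw [h2, h3]
    linear_combination hE
  have t1 : 0 ≤ c ^ 2 / (4 * a) * (1 / r - 2 * a * κ / c ^ 2) ^ 2 := by positivity
  have t2 : 0 ≤ a * s ^ 2 / r ^ 2 := by positivity
  have t3 : 0 ≤ a * W' ^ 2 := by positivity
  have t4 : 0 ≤ b * Z' ^ 2 / 2 := by positivity
  have t5 : 0 ≤ 2 * a * b * (1 / r - 1 / d) := by positivity
  have e1 : c ^ 2 / (4 * a) * (1 / r - 2 * a * κ / c ^ 2) ^ 2 = 0 := by linarith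
  have e2 : a * s ^ 2 / r ^ 2 = 0 := by linarith
  have e3 : a * W' ^ 2 = 0 := by linarith
  have e4 : b * Z' ^ 2 / 2 = 0 := by linarith
  have e5 : 2 * a * b * (1 / r - 1 / d) = 0 := by linarith
  refine ⟨?_, ?_, ?_, ?_, ?_⟩
  · have h1 : (1 / r - 2 * a * κ / c ^ 2) ^ 2 = 0 := by
      rcases mul_eq_zero.1 e1 with h | h
      · exfalso
        have : 0 < c ^ 2 / (4 * a) := by positivity
        exact this.ne' h
      · exact h
    have h2 : 1 / r = 2 * a * κ / c ^ 2 := by
      have := pow_eq_zero_iff (two_ne_zero) |>.1 h1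
      linarith
    rw [div_eq_div_iff hr.ne' hc2.ne'] at h2
    rw [eq_div_iff (by positivity)]
    rw [hκ] at h2
    linear_combination -h2
  · have h1 : a * s ^ 2 = 0 := by
      rcases div_eq_zero_iff.1 e2 with h | h
      · exact h
      · exact absurd h (by positivity)
    rcases mul_eq_zero.1 h1 with h | h
    · exact absurd h ha.ne'
    · exact pow_eq_zero_iff two_ne_zero |>.1 h
  · rcases mul_eq_zero.1 e3 with h | h
    · exact absurd h ha.ne'
    · exact pow_eq_zero_iff two_ne_zero |>.1 h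
  · have h1 : b * Z' ^ 2 = 0 := by linarith
    rcases mul_eq_zero.1 h1 with h | h
    · exact absurd h hb.ne'
    · exact pow_eq_zero_iff two_ne_zero |>.1 h
  · have h1 : 1 / r - 1 / d = 0 := by
      rcases mul_eq_zero.1 e5 with h | h
      · exfalso
        have : 0 < 2 * a * b := by positivity
        exact this.ne' h
      · exact h
    have h2 : 1 / r = 1 / d := by linarith
    rw [div_eq_div_iff hr.ne' hd0.ne'] at h2
    linarith

theorem energy_eq (m : Fin 3 → ℝ) (x : St) :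
    energy m x = 1 / 2 * (m 0 * ‖x.2 0‖ ^ 2 + m 1 * ‖x.2 1‖ ^ 2 + m 2 * ‖x.2 2‖ ^ 2) -
      (m 0 * m 1 / ‖x.1 0 - x.1 1‖ + m 0 * m 2 / ‖x.1 0 - x.1 2‖ +
        m 1 * m 2 / ‖x.1 1 - x.1 2‖) := by
  have h0 : Finset.Ioi (0 : Fin 3) = {1, 2} := by decide
  have h1 : Finset.Ioi (1 : Fin 3) = {2} := by decide
  have h2 : Finset.Ioi (2 : Fin 3) = ∅ := by decide
  unfold energy
  rw [Fin.sum_univ_three, Fin.sum_univ_three, h0, h1, h2, Finset.sum_singleton,
    Finset.sum_empty, Finset.sum_pair (by decide), add_zero]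

theorem norm_sq3 (v : E3) : ‖v‖ ^ 2 = v 0 ^ 2 + v 1 ^ 2 + v 2 ^ 2 := by
  rw [EuclideanSpace.norm_sq_eq, Fin.sum_univ_three]
  simp only [Real.norm_eq_abs, sq_abs]

theorem ext3 {v w : E3} (h0 : v 0 = w 0) (h1 : v 1 = w 1) (h2 : v 2 = w 2) : v = w := by
  ext i
  fin_cases i
  · exact h0
  · exact h1
  · exact h2

theorem mem_span_axis {v : E3} : v ∈ Submodule.span ℝ {axis} ↔ v 0 = 0 ∧ v 1 = 0 := by
  rw [Submodule.mem_span_singleton]
  constructor
  · rintro ⟨a, rfl⟩
    constructor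
    · change a * 0 = 0
      rw [mul_zero]
    · change a * 0 = 0
      rw [mul_zero]
  · rintro ⟨h0, h1⟩
    refine ⟨v 2, ext3 ?_ ?_ ?_⟩
    · change v 2 * 0 = v 0
      rw [mul_zero, h0]
    · change v 2 * 0 = v 1
      rw [mul_zero, h1]
    · change v 2 * 1 = v 2
      rw [mul_one]

/-- The data of the circle. -/
noncomputable def rad (a b c : ℝ) : ℝ := c ^ 2 / (a ^ 2 * (a + 4 * b))

/-- The angular velocity. -/
noncomputable def vel (a b c : ℝ) : ℝ := c / (2 * a * rad a b c ^ 2)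

/-- The energy. -/
noncomputable def hmin (a b c : ℝ) : ℝ := -(a * (a ^ 2 / 2 + 2 * a * b) ^ 2 / c ^ 2)

section

variable {m : Fin 3 → ℝ} {a b c : ℝ} (h0 : m 0 = a) (h1 : m 1 = a) (h2 : m 2 = b) (ha : 0 < a)
  (hb : 0 < b) (hc : c ≠ 0)

include ha hb hc in
theorem rad_pos : 0 < rad a b c := by
  unfold rad
  have : 0 < c ^ 2 := by positivity
  positivity

include h0 h1 h2 ha hb hc in
theorem M_subset {x : St} (hx : x ∈ M m (hmin a b c) c) :
    x = rot (vel a b c) (fstC x) ∧ ‖fstC x‖ = rad a b c := by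
  obtain ⟨⟨hI, hne⟩, hE, hC⟩ := hx
  have hp3 := mem_span_axis.1 hI.pos3
  have hv3 := mem_span_axis.1 hI.vel3
  have hq10 : x.1 1 0 = -x.1 0 0 := by rw [hI.pos2]; rfl
  have hq11 : x.1 1 1 = -x.1 0 1 := by rw [hI.pos2]; rfl
  have hq12 : x.1 1 2 = x.1 0 2 := by rw [hI.pos2]; rfl
  have hv10 : x.2 1 0 = -x.2 0 0 := by rw [hI.vel2]; rfl
  have hv11 : x.2 1 1 = -x.2 0 1 := by rw [hI.vel2]; rfl
  have hv12 : x.2 1 2 = x.2 0 2 := by rw [hI.vel2]; rfl
  have hcom : 2 * a * x.1 0 2 + b * x.1 2 2 = 0 := by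
    have := congrArg (fun v : E3 => v 2) hI.com
    simp only [Fin.sum_univ_three, PiLp.add_apply, PiLp.smul_apply, smul_eq_mul,
      PiLp.zero_apply, h0, h1, h2, hq12] at this
    linarith
  have hmom : 2 * a * x.2 0 2 + b * x.2 2 2 = 0 := by
    have := congrArg (fun v : E3 => v 2) hI.mom
    simp only [Fin.sum_univ_three, PiLp.add_apply, PiLp.smul_apply, smul_eq_mul,
      PiLp.zero_apply, h0, h1, h2, hv12] at this
    linarith
  have hang : 2 * a * (x.1 0 0 * x.2 0 1 - x.1 0 1 * x.2 0 0) = c := by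
    have h3 := congrArg (fun v : E3 => v 2) hC
    have h4 : (c • axis : E3) 2 = c := by
      change c * 1 = c
      rw [mul_one]
    have h5 : ∀ i, (cross (x.1 i) (x.2 i)) 2 = x.1 i 0 * x.2 i 1 - x.1 i 1 * x.2 i 0 :=
      fun i => rfl
    simp only [angMom, Fin.sum_univ_three, PiLp.add_apply, PiLp.smul_apply, smul_eq_mul, h4, h5,
      h0, h1, h2, hq10, hq11, hv10, hv11, hp3.1, hp3.2] at h3
    linarith
  set X := x.1 0 0 with hX
  set Y := x.1 0 1 with hY
  set W := x.1 0 2 with hW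
  set X' := x.2 0 0 with hX'
  set Y' := x.2 0 1 with hY'
  set W' := x.2 0 2 with hW'
  set Z := x.1 2 2 with hZ
  set Z' := x.2 2 2 with hZ'
  set r := ‖fstC x‖ with hr
  have hr2 : r ^ 2 = X ^ 2 + Y ^ 2 := by
    rw [hr, Complex.sq_norm, Complex.normSq_apply]
    change X * X + Y * Y = _
    ring
  have hr0 : 0 < r := by
    rw [hr, norm_pos_iff]
    intro hz
    apply hne 0 1 (by decide)
    have e1 : X = 0 := congrArg Complex.re hz
    have e2 : Y = 0 := congrArg Complex.im hz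
    refine ext3 ?_ ?_ hq12.symm
    · rw [hq10, ← hX, e1, neg_zero]
    · rw [hq11, ← hY, e2, neg_zero]
  have n01 : ‖x.1 0 - x.1 1‖ = 2 * r := by
    rw [← sq_eq_sq₀ (norm_nonneg _) (by positivity), norm_sq3]
    simp only [PiLp.sub_apply, hq10, hq11, hq12]
    rw [mul_pow, hr2]
    ring
  have n12 : ‖x.1 1 - x.1 2‖ = ‖x.1 0 - x.1 2‖ := by
    rw [← sq_eq_sq₀ (norm_nonneg _) (norm_nonneg _), norm_sq3, norm_sq3]
    simp only [PiLp.sub_apply, hq10, hq11, hq12, hp3.1, hp3.2]
    ring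
  set d := ‖x.1 0 - x.1 2‖ with hd
  have hd2 : d ^ 2 = X ^ 2 + Y ^ 2 + (W - Z) ^ 2 := by
    rw [hd, norm_sq3]
    simp only [PiLp.sub_apply, hp3.1, hp3.2]
    ring
  have hrd : r ≤ d := by
    rw [← sq_le_sq₀ hr0.le (norm_nonneg _), hd2, hr2]
    have := sq_nonneg (W - Z)
    linarith
  have hEn : a * (X' ^ 2 + Y' ^ 2 + W' ^ 2) + b * Z' ^ 2 / 2 -
      (a * a / (2 * r) + 2 * (a * b / d)) = -(a * (a ^ 2 / 2 + 2 * a * b) ^ 2 / c ^ 2) := by
    have e1 := hE
    rw [energy_eq, n12, n01, ← hd, norm_sq3 (x.2 0), norm_sq3 (x.2 1), norm_sq3 (x.2 2), hv10,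
      hv11, hv12, hv3.1, hv3.2, h0, h1, h2] at e1
    unfold hmin at e1
    rw [← e1]
    ring
  obtain ⟨k1, k2, k3, k4, k5⟩ := key ha hb hr0 hr2 hrd hc hang hEn
  have hWZ : W = Z := by
    rw [k5, hr2] at hd2
    have : (W - Z) ^ 2 = 0 := by linarith
    have := pow_eq_zero_iff two_ne_zero |>.1 this
    linarith
  have hZ0 : Z = 0 := by
    rw [hWZ] at hcom
    have : (2 * a + b) * Z = 0 := by linarith
    rcases mul_eq_zero.1 this with h | h
    · exfalso
      have : 0 < 2 * a + b := by positivity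
      exact this.ne' h
    · exact h
  have hW0 : W = 0 := hWZ.trans hZ0
  have hkr : r = rad a b c := k1
  have hX'e : X' = -(vel a b c) * Y := by
    have : r ^ 2 * X' = -(c / (2 * a)) * Y := by
      rw [hr2, ← hang]
      field_simp
      linear_combination X * k2
    have h6 : vel a b c = c / (2 * a) / r ^ 2 := by
      unfold vel
      rw [← hkr]
      field_simp
    rw [h6]
    field_simp
    field_simp at this
    linear_combination this
  have hY'e : Y' = vel a b c * X := by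
    have : r ^ 2 * Y' = (c / (2 * a)) * X := by
      rw [hr2, ← hang]
      field_simp
      linear_combination Y * k2
    have h6 : vel a b c = c / (2 * a) / r ^ 2 := by
      unfold vel
      rw [← hkr]
      field_simp
    rw [h6]
    field_simp
    field_simp at this
    linear_combination this
  have hu : ∀ ω : ℝ, (ω * Complex.I * fstC x) = ⟨-ω * Y, ω * X⟩ := by
    intro ω
    have : fstC x = ⟨X, Y⟩ := rfl
    rw [this]
    apply Complex.ext <;> simp
  refine ⟨?_, hkr⟩
  apply Prod.ext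
  · funext i
    fin_cases i
    · exact ext3 rfl rfl hW0
    · refine ext3 hq10 hq11 ?_
      change x.1 1 2 = -0
      rw [hq12, neg_zero, hW0]
    · exact ext3 hp3.1 hp3.2 hZ0
  · funext i
    rw [rot_snd, hu]
    fin_cases i
    · exact ext3 hX'e hY'e k3
    · refine ext3 ?_ ?_ ?_
      · change x.2 1 0 = - _
        rw [hv10, hX'e]
        rfl
      · change x.2 1 1 = - _
        rw [hv11, hY'e]
        rfl
      · change x.2 1 2 = - 0
        rw [hv12, neg_zero]
        exact k3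
    · exact ext3 hv3.1 hv3.2 k4

theorem halfTurn_vec (u : ℂ) : halfTurn (vec u) = -vec u := by
  apply ext3
  · rfl
  · rfl
  · change vec u 2 = - vec u 2
    rw [vec_2, neg_zero]

theorem vec_ne {u : ℂ} (hu : u ≠ 0) : vec u ≠ 0 := by
  rw [← norm_ne_zero_iff, norm_vec]
  exact norm_ne_zero_iff.2 hu

theorem tri_ne {u : ℂ} (hu : u ≠ 0) (i j : Fin 3) (hij : i ≠ j) : tri u i ≠ tri u j := by
  have h := vec_ne hu
  have h' : vec u ≠ -vec u := by
    intro e
    have h3 : (2 : ℝ) • vec u = 0 := by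
      rw [two_smul]
      nth_rewrite 2 [e]
      rw [add_neg_cancel]
    rcases smul_eq_zero.1 h3 with h4 | h4
    · norm_num at h4
    · exact h h4
  fin_cases i <;> fin_cases j
  · exact absurd rfl hij
  · exact h'
  · exact h
  · exact h'.symm
  · exact absurd rfl hij
  · exact neg_ne_zero.2 h
  · exact h.symm
  · exact (neg_ne_zero.2 h).symm
  · exact absurd rfl hij

include h0 h1 h2 ha hb hc in
theorem subset_M {u : ℂ} (hu : ‖u‖ = rad a b c) : rot (vel a b c) u ∈ M m (hmin a b c) c := by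
  have hr := rad_pos ha hb hc
  have hu0 : u ≠ 0 := by
    intro h
    rw [h, norm_zero] at hu
    exact hr.ne hu
  have hsum : ∀ w : ℂ, ∑ i, m i • tri w i = 0 := by
    intro w
    rw [Fin.sum_univ_three, tri_0, tri_1, tri_2, h0, h1, smul_zero, add_zero, smul_neg,
      add_neg_cancel]
  refine ⟨⟨⟨hsum _, hsum _, ?_, ?_, ?_, ?_⟩, tri_ne hu0⟩, ?_, ?_⟩
  · exact Submodule.zero_mem _
  · exact Submodule.zero_mem _
  · exact (halfTurn_vec _).symm
  · exact (halfTurn_vec _).symm
  · have hc2 : 0 < c ^ 2 := by positivity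
    have n0 : ‖(vel a b c : ℂ) * Complex.I * u‖ ^ 2 = vel a b c ^ 2 * rad a b c ^ 2 := by
      rw [norm_mul, norm_mul, Complex.norm_I, mul_one, hu, mul_pow, Complex.norm_real,
        Real.norm_eq_abs, sq_abs]
    rw [energy_eq, rot_fst, rot_snd, tri_0, tri_1, tri_2, tri_0, tri_1, tri_2, sub_zero, sub_zero,
      norm_neg, norm_neg, norm_zero, sub_neg_eq_add, ← two_smul ℝ (vec u), norm_smul, norm_vec,
      norm_vec, n0, hu, h0, h1, h2, Real.norm_ofNat]
    unfold hmin vel
    rw [div_pow, mul_pow, mul_pow]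
    have hR : rad a b c * (a ^ 2 * (a + 4 * b)) = c ^ 2 := by
      unfold rad
      field_simp
    set R := rad a b c with hRdef
    rw [← hR]
    field_simp
    ring
  · have e2 : ∀ w : ℂ, cross (vec u) (vec w) = (u.re * w.im - u.im * w.re) • axis := by
      intro w
      apply ext3
      · change u.im * 0 - 0 * w.im = (u.re * w.im - u.im * w.re) * 0
        ring
      · change 0 * w.re - u.re * 0 = (u.re * w.im - u.im * w.re) * 0
        ring
      · change u.re * w.im - u.im * w.re = (u.re * w.im - u.im * w.re) * 1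
        ring
    have e3 : ∀ v w : E3, cross (-v) (-w) = cross v w := by
      intro v w
      apply ext3
      · change (-v 1) * (-w 2) - (-v 2) * (-w 1) = v 1 * w 2 - v 2 * w 1
        ring
      · change (-v 2) * (-w 0) - (-v 0) * (-w 2) = v 2 * w 0 - v 0 * w 2
        ring
      · change (-v 0) * (-w 1) - (-v 1) * (-w 0) = v 0 * w 1 - v 1 * w 0
        ring
    have e4 : cross (0 : E3) 0 = 0 := by
      apply ext3
      · change (0 : ℝ) * 0 - 0 * 0 = 0
        ring
      · change (0 : ℝ) * 0 - 0 * 0 = 0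
        ring
      · change (0 : ℝ) * 0 - 0 * 0 = 0
        ring
    unfold angMom
    rw [Fin.sum_univ_three, rot_fst, rot_snd, tri_0, tri_1, tri_2, tri_0, tri_1, tri_2, e3, e2,
      e4, smul_zero, add_zero, h0, h1, smul_smul, ← add_smul]
    congr 1
    have e5 : ((vel a b c : ℂ) * Complex.I * u).im = vel a b c * u.re := by simp
    have e6 : ((vel a b c : ℂ) * Complex.I * u).re = -(vel a b c * u.im) := by simp
    have e7 : u.re ^ 2 + u.im ^ 2 = rad a b c ^ 2 := by
      rw [← hu, Complex.sq_norm, Complex.normSq_apply]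
      ring
    rw [e5, e6]
    have e8 : 2 * a * (vel a b c * rad a b c ^ 2) = c := by
      unfold vel
      field_simp
    rw [← e7] at e8
    linear_combination e8

include h0 h1 h2 ha hb hc in
theorem M_eq : M m (hmin a b c) c = rot (vel a b c) '' Metric.sphere 0 (rad a b c) := by
  ext x
  constructor
  · intro hx
    obtain ⟨e1, e2⟩ := M_subset h0 h1 h2 ha hb hc hx
    exact ⟨fstC x, mem_sphere_zero_iff_norm.2 e2, e1.symm⟩
  · rintro ⟨u, hu, rfl⟩
    exact subset_M h0 h1 h2 ha hb hc (mem_sphere_zero_iff_norm.1 hu)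

include h0 h1 h2 ha hb hc in
theorem acc_tri {w : ℂ} (hw : ‖w‖ = rad a b c) :
    acc m (tri w) = tri (vel a b c * Complex.I * (vel a b c * Complex.I * w)) := by
  have hr := rad_pos ha hb hc
  have hR : rad a b c * (a ^ 2 * (a + 4 * b)) = c ^ 2 := by
    unfold rad
    field_simp
  have hom : vel a b c ^ 2 = (a + 4 * b) / (4 * rad a b c ^ 3) := by
    unfold vel
    rw [div_pow, ← hR]
    field_simp
    norm_num
  have hsq : (vel a b c * Complex.I * (vel a b c * Complex.I * w) : ℂ) =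
      (-(vel a b c ^ 2)) • w := by
    rw [Complex.real_smul]
    push_cast
    linear_combination (vel a b c : ℂ) ^ 2 * w * Complex.I_sq
  rw [hsq, map_smul, hom]
  have n1 : ‖-vec w - vec w‖ = 2 * rad a b c := by
    rw [← neg_add', norm_neg, ← two_smul ℝ (vec w), norm_smul, norm_vec, hw, Real.norm_ofNat]
  have n2 : ‖vec w - -vec w‖ = 2 * rad a b c := by
    rw [sub_neg_eq_add, ← two_smul ℝ (vec w), norm_smul, norm_vec, hw, Real.norm_ofNat]
  have n3 : ‖vec w‖ = rad a b c := by rw [norm_vec, hw]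
  have s0 : (Finset.univ.erase (0 : Fin 3)) = {1, 2} := by decide
  have s1 : (Finset.univ.erase (1 : Fin 3)) = {0, 2} := by decide
  have s2 : (Finset.univ.erase (2 : Fin 3)) = {0, 1} := by decide
  funext i
  fin_cases i
  · change acc m (tri w) 0 = (-((a + 4 * b) / (4 * rad a b c ^ 3))) • tri w 0
    unfold acc
    rw [s0, Finset.sum_pair (by decide), tri_0, tri_1, tri_2, n1, zero_sub, norm_neg, n3, h1, h2]
    rw [← neg_add', ← two_smul ℝ (vec w), ← neg_smul, smul_smul, smul_neg, ← neg_smul,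
      ← add_smul]
    congr 1
    field_simp
    ring
  · change acc m (tri w) 1 = (-((a + 4 * b) / (4 * rad a b c ^ 3))) • tri w 1
    unfold acc
    rw [s1, Finset.sum_pair (by decide), tri_0, tri_1, tri_2, n2, sub_neg_eq_add, sub_neg_eq_add,
      zero_add, n3, h0, h2]
    rw [← two_smul ℝ (vec w), smul_smul, ← add_smul, smul_neg, ← neg_smul]
    congr 1
    field_simp
    ring
  · change acc m (tri w) 2 = (-((a + 4 * b) / (4 * rad a b c ^ 3))) • tri w 2
    unfold acc
    rw [s2, Finset.sum_pair (by decide), tri_0, tri_1, tri_2, sub_zero, sub_zero, norm_neg, n3,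
      h0, h1, smul_zero, smul_neg, add_neg_cancel]

/-- The rotating solution. -/
noncomputable def sol (ω : ℝ) (u : ℂ) (t : ℝ) : St := rot ω (Complex.exp (ω * Complex.I * t) * u)

theorem norm_exp_mul (ω t : ℝ) (u : ℂ) : ‖Complex.exp (ω * Complex.I * t) * u‖ = ‖u‖ := by
  rw [norm_mul]
  have : (ω * Complex.I * t : ℂ) = ((ω * t : ℝ) : ℂ) * Complex.I := by push_cast; ring
  rw [this, Complex.norm_exp_ofReal_mul_I, one_mul]

theorem hasDerivAt_exp (ω t : ℝ) (u : ℂ) :
    HasDerivAt (fun t : ℝ => Complex.exp (ω * Complex.I * t) * u)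
      (ω * Complex.I * (Complex.exp (ω * Complex.I * t) * u)) t := by
  have h1 : HasDerivAt (fun t : ℝ => (ω * Complex.I * t : ℂ)) (ω * Complex.I) t := by
    simpa using (Complex.ofRealCLM.hasDerivAt (x := t)).const_mul (ω * Complex.I : ℂ)
  have h2 := (h1.cexp).mul_const u
  refine h2.congr_deriv ?_
  ring

include h0 h1 h2 ha hb hc in
theorem sol_isSolution {u : ℂ} (hu : ‖u‖ = rad a b c) : IsSolution m (sol (vel a b c) u) := by
  have hr := rad_pos ha hb hc
  intro t
  have hn : ‖Complex.exp (vel a b c * Complex.I * t) * u‖ = rad a b c := by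
    rw [norm_exp_mul, hu]
  refine ⟨tri_ne ?_, ?_⟩
  · intro h
    rw [h, norm_zero] at hn
    exact hr.ne hn
  · have h3 := (rot (vel a b c)).hasFDerivAt.comp_hasDerivAt t
      (hasDerivAt_exp (vel a b c) t u)
    refine h3.congr_deriv ?_
    apply Prod.ext
    · rfl
    · change tri _ = acc m (tri _)
      rw [acc_tri h0 h1 h2 ha hb hc hn]
      rfl

include h0 h1 h2 ha hb hc in
theorem unique {γ : ℝ → St} (hγ : IsSolution m γ) (hM : ∀ t, γ t ∈ M m (hmin a b c) c) (t : ℝ) :
    γ t = sol (vel a b c) (fstC (γ 0)) t := by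
  have hrot : ∀ t, γ t = rot (vel a b c) (fstC (γ t)) := fun t =>
    (M_subset h0 h1 h2 ha hb hc (hM t)).1
  have hder : ∀ t, HasDerivAt (fun t => fstC (γ t)) (vel a b c * Complex.I * fstC (γ t)) t := by
    intro t
    have h3 := fstC.hasFDerivAt.comp_hasDerivAt t (hγ t).2
    refine h3.congr_deriv ?_
    have h4 : (γ t).2 = tri (vel a b c * Complex.I * fstC (γ t)) := by
      conv_lhs => rw [hrot t]
      rfl
    rw [h4]
    rfl
  have hconst : ∀ t, HasDerivAt (fun t : ℝ => Complex.exp (-(vel a b c) * Complex.I * t) *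
      fstC (γ t)) 0 t := by
    intro t
    have h1 : HasDerivAt (fun t : ℝ => (-(vel a b c) * Complex.I * t : ℂ))
        (-(vel a b c) * Complex.I) t := by
      simpa using (Complex.ofRealCLM.hasDerivAt (x := t)).const_mul (-(vel a b c) * Complex.I : ℂ)
    have h2 := (h1.cexp).mul (hder t)
    refine h2.congr_deriv ?_
    ring
  have heq : ∀ t : ℝ, Complex.exp (-(vel a b c) * Complex.I * t) * fstC (γ t) = fstC (γ 0) := by
    intro t
    have h5 := is_const_of_deriv_eq_zero (fun t => (hconst t).differentiableAt)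
      (fun t => (hconst t).deriv) t 0
    rw [h5]
    simp
  rw [hrot t]
  unfold sol
  congr 1
  rw [← heq t, ← mul_assoc, ← Complex.exp_add]
  have : (vel a b c * Complex.I * t + -(vel a b c) * Complex.I * t : ℂ) = 0 := by ring
  rw [this, Complex.exp_zero, one_mul]

include h0 h1 h2 ha hb hc in
theorem main : (M m (hmin a b c) c).Nonempty ∧ IsCompact (M m (hmin a b c) c) ∧
    IsSmoothSubmanifold (M m (hmin a b c) c) ∧
    (∃ Φ, IsFlow m (M m (hmin a b c) c) Φ) ∧
    ∀ Φ, IsFlow m (M m (hmin a b c) c) Φ → Dynamics.coverEntropy (Φ 1) univ = 0 := by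
  have hr := rad_pos ha hb hc
  have hM := M_eq h0 h1 h2 ha hb hc
  have hcomp : IsCompact (M m (hmin a b c) c) := by
    rw [hM]
    exact (isCompact_sphere _ _).image (rot _).continuous
  have hne : (M m (hmin a b c) c).Nonempty :=
    ⟨_, subset_M h0 h1 h2 ha hb hc (u := rad a b c) (by
      rw [Complex.norm_real, Real.norm_of_nonneg hr.le])⟩
  refine ⟨hne, hcomp, ?_, ?_, ?_⟩
  · rw [hM]
    exact circle_submanifold _ fstC (fstC_rot _) hr
  · refine ⟨fun t x => ⟨sol (vel a b c) (fstC x) t, subset_M h0 h1 h2 ha hb hc ?_⟩, ?_⟩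
    · rw [norm_exp_mul, (M_subset h0 h1 h2 ha hb hc x.2).2]
    · intro x
      refine ⟨?_, sol_isSolution h0 h1 h2 ha hb hc (M_subset h0 h1 h2 ha hb hc x.2).2⟩
      apply Subtype.ext
      change sol _ _ 0 = _
      unfold sol
      have h3 := (M_subset h0 h1 h2 ha hb hc x.2).1
      rw [Complex.ofReal_zero, mul_zero, Complex.exp_zero, one_mul, ← h3]
  · intro Φ hΦ
    have : CompactSpace (M m (hmin a b c) c) := isCompact_iff_compactSpace.1 hcomp
    have : Nonempty (M m (hmin a b c) c) := hne.to_subtype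
    apply coverEntropy_isometry
    have hform : ∀ x, (Φ 1 x : St) = rot (vel a b c)
        (Complex.exp (vel a b c * Complex.I * (1 : ℝ)) * fstC (x : St)) := by
      intro x
      have h3 := unique h0 h1 h2 ha hb hc (hΦ x).2 (fun t => (Φ t x).2) 1
      rw [(hΦ x).1] at h3
      exact h3
    apply Isometry.of_dist_eq
    intro x y
    rw [Subtype.dist_eq, Subtype.dist_eq, dist_eq_norm, dist_eq_norm, hform, hform, ← map_sub,
      ← mul_sub, norm_rot, norm_exp_mul, ← norm_rot]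
    congr 1
    rw [map_sub, ← (M_subset h0 h1 h2 ha hb hc x.2).1, ← (M_subset h0 h1 h2 ha hb hc y.2).1]

end

end Q198.IS
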